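import Mathlib

set_option autoImplicit false
set_option maxHeartbeats 400000

open Cardinal TopologicalSpace

namespace Pool.Agent.Results.MP_e4445d_al.BidualWeight

universe u

/-- least cardinality of a base of the topology -/
noncomputable def weight (X : Type u) [TopologicalSpace X] : Cardinal.{u} :=
  sInf {c | ∃ B : Set (Set X), IsTopologicalBasis B ∧ Cardinal.mk B = c}

theorem weight_le {X : Type u} [TopologicalSpace X] (B : Set (Set X)) (h : IsTopologicalBasis B) :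
    weight X ≤ Cardinal.mk B := csInf_le' ⟨B, h, rfl⟩

theorem exists_dense (X : Type u) [TopologicalSpace X] :
    ∃ D : Set X, Dense D ∧ Cardinal.mk D ≤ weight X := by
  obtain ⟨B, hB, e⟩ : weight X ∈ {c | ∃ B : Set (Set X), IsTopologicalBasis B ∧ Cardinal.mk B = c} :=
    csInf_mem ⟨_, _, isTopologicalBasis_opens, rfl⟩
  let f : {s : B // s.1.Nonempty} → X := fun s => s.2.some
  refine ⟨Set.range f, hB.dense_iff.2 fun o ho hn => ⟨_, hn.some_mem, ⟨⟨o, ho⟩, hn⟩, rfl⟩, ?_⟩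
  rw [← e]
  exact mk_range_le.trans (mk_subtype_le _)

theorem weight_le_of_dense {X : Type u} [PseudoMetricSpace X] (E : Set X) (hE : Dense E)
    (κ : Cardinal.{u}) (hκ : ℵ₀ ≤ κ) (h : Cardinal.mk E ≤ κ) : weight X ≤ κ := by
  let f : E × ULift.{u} ℕ → Set X := fun p => Metric.ball p.1 (1 / (p.2.down + 1))
  refine (weight_le (Set.range f) ?_).trans (mk_range_le.trans ?_)
  · refine isTopologicalBasis_of_isOpen_of_nhds ?_ ?_
    · rintro _ ⟨p, rfl⟩; exact Metric.isOpen_ball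
    · intro a U ha hU
      obtain ⟨ε, hε, h1⟩ := Metric.isOpen_iff.1 hU a ha
      obtain ⟨n, hn⟩ := exists_nat_one_div_lt (half_pos hε)
      obtain ⟨e, he, h2⟩ := hE.exists_dist_lt a (Nat.one_div_pos_of_nat (n := n))
      refine ⟨_, ⟨(⟨e, he⟩, ⟨n⟩), rfl⟩, h2, fun y hy => h1 ?_⟩
      have h3 : dist y e < 1 / ((n : ℝ) + 1) := hy
      have := dist_triangle_right y a e
      rw [Metric.mem_ball]
      linarith
  · simp only [mk_prod, lift_id, mk_uLift, mk_nat, lift_aleph0]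
    exact (mul_le_mul' h hκ).trans (mul_eq_self hκ).le

theorem weight_le_card (X : Type u) [TopologicalSpace X] [DiscreteTopology X] :
    weight X ≤ Cardinal.mk X := by
  refine (weight_le _ (isTopologicalBasis_singletons X)).trans ?_
  have : {s : Set X | ∃ x, s = {x}} = Set.range fun x : X => ({x} : Set X) := by
    ext s; simp [eq_comm]
  rw [this]; exact mk_range_le

abbrev T := UnitAddCircle

theorem small (θ : T) (k : ℕ) (h : ∀ j : ℕ, j ≤ k → ‖j • θ‖ ≤ 1 / 4) : k * ‖θ‖ ≤ 1 / 4 := by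
  obtain ⟨t, ht, rfl⟩ : ∃ t : ℝ, |t| ≤ 1 / 2 ∧ (t : T) = θ := by
    obtain ⟨s, rfl⟩ := QuotientAddGroup.mk_surjective θ
    refine ⟨s - round s, abs_sub_round s, ?_⟩
    rw [AddCircle.coe_sub, sub_eq_self, AddCircle.coe_eq_zero_iff]
    exact ⟨round s, by simp⟩
  have e : ∀ s : ℝ, |s| ≤ 1 / 2 → ‖(s : T)‖ = |s| := fun s hs =>
    (AddCircle.norm_coe_eq_abs_iff 1 one_ne_zero).2 (by simpa using hs)
  rw [e t ht]
  induction k with
  | zero => norm_num
  | succ k ih =>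
    have h1 := ih fun j hj => h j (by omega)
    have h2 := h 1 (by omega)
    have h3 := h (k + 1) le_rfl
    rw [one_smul, e t ht] at h2
    have h4 : |(k + 1 : ℕ) • t| = (k + 1 : ℕ) * |t| := by
      rw [nsmul_eq_mul, abs_mul, Nat.abs_cast]
    rw [← AddCircle.coe_nsmul, e _ (by rw [h4]; push_cast; linarith), h4] at h3
    exact h3

theorem bound {G : Type u} [NormedAddCommGroup G] (ψ : G →+ T) (C : ℝ) (hC : 0 < C)
    (h : ∀ x, ‖x‖ ≤ C → ‖ψ x‖ ≤ 1 / 4) (x : G) : ‖ψ x‖ ≤ 1 / (2 * C) * ‖x‖ := by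
  rw [div_mul_eq_mul_div, le_div_iff₀ (by positivity), one_mul]
  by_cases hx : x = 0
  · simp [hx]
  have hp : 0 < ‖x‖ := norm_pos_iff.2 hx
  by_cases h1 : C ≤ ‖x‖
  · have : ‖ψ x‖ ≤ |1| / 2 := AddCircle.norm_le_half_period 1 one_ne_zero
    rw [abs_one] at this
    nlinarith
  push Not at h1
  have h2 : (⌊C / ‖x‖⌋₊ : ℝ) ≤ C / ‖x‖ := Nat.floor_le (by positivity)
  have h3 := Nat.lt_floor_add_one (C / ‖x‖)
  have h4 : 1 ≤ ⌊C / ‖x‖⌋₊ := Nat.le_floor (by rw [Nat.cast_one, le_div_iff₀ hp]; linarith)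
  have h4' : (1 : ℝ) ≤ ⌊C / ‖x‖⌋₊ := by exact_mod_cast h4
  rw [le_div_iff₀ hp] at h2
  rw [div_lt_iff₀ hp] at h3
  have h5 := small (ψ x) ⌊C / ‖x‖⌋₊ fun j hj => by
    rw [← map_nsmul]
    refine h _ ((norm_nsmul_le).trans ?_)
    have : (j : ℝ) ≤ ⌊C / ‖x‖⌋₊ := by exact_mod_cast hj
    nlinarith
  have h6 := norm_nonneg (ψ x)
  nlinarith [mul_le_mul_of_nonneg_right h5 hp.le, mul_le_mul_of_nonneg_left h3.le h6,
    mul_le_mul_of_nonneg_left h4' (mul_nonneg h6 hp.le)]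

theorem bounded {G : Type u} [NormedAddCommGroup G] (ψ : G →+ T) (hψ : Continuous ψ) :
    ∃ M : ℝ, ∀ x, ‖ψ x‖ ≤ M * ‖x‖ := by
  obtain ⟨δ, hδ, h⟩ := Metric.continuousAt_iff.1 (hψ.continuousAt (x := 0)) (1 / 4) (by norm_num)
  refine ⟨_, bound ψ (δ / 2) (half_pos hδ) fun x hx => ?_⟩
  have := h (x := x) (by rw [dist_zero_right]; linarith)
  rw [map_zero, dist_zero_right] at this
  exact this.le

theorem finite_net {A Y : Type*} [PseudoMetricSpace Y] [CompactSpace Y] (F : A → Y) (δ : ℝ)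
    (hδ : 0 < δ) : ∃ S : Set A, S.Finite ∧ ∀ a, ∃ b ∈ S, dist (F a) (F b) < δ := by
  obtain ⟨t, h1, h2, h3⟩ := Metric.finite_approx_of_totallyBounded
    (isCompact_univ.totallyBounded.subset (Set.subset_univ (Set.range F))) δ hδ
  obtain ⟨S, -, hS, rfl⟩ := Set.Finite.exists_subset_finite_image_eq (s := Set.univ) h2
    (by rwa [Set.image_univ])
  refine ⟨S, hS, fun a => ?_⟩
  obtain ⟨_, ⟨b, hb, rfl⟩, h⟩ := Set.mem_iUnion₂.1 (h3 ⟨a, rfl⟩)
  exact ⟨b, hb, h⟩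

abbrev Du (G : Type u) [NormedAddCommGroup G] := NormedAddGroupHom G T

section
variable {H : Type u} [NormedAddCommGroup H]

theorem exists_sep (D : Set (Du H)) (hD : Dense D) :
    ∃ φ : D → H, ∀ ξ : Du H, (∀ d, ξ (φ d) = 0) → ξ = 0 := by
  have : ∀ d : D, ∃ x : H, d.1 ≠ 0 → ‖d.1‖ / 2 * ‖x‖ < ‖d.1 x‖ := by
    intro d
    by_contra hc
    push Not at hc
    have h1 := NormedAddGroupHom.opNorm_le_bound d.1 (by positivity) fun x => (hc x).2
    have h2 := norm_pos_iff.2 (hc 0).1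
    linarith
  choose φ hφ using this
  refine ⟨φ, fun ξ hξ => ?_⟩
  by_contra h0
  have hr := norm_pos_iff.2 h0
  obtain ⟨d, hd, h1⟩ := hD.exists_dist_lt ξ (show 0 < ‖ξ‖ / 4 by positivity)
  rw [dist_eq_norm] at h1
  have h2 := norm_sub_norm_le ξ d
  have h3 := hφ ⟨d, hd⟩ (norm_pos_iff.1 (by simp only []; linarith))
  have h4 := (ξ - d).le_opNorm (φ ⟨d, hd⟩)
  rw [NormedAddGroupHom.sub_apply, hξ, zero_sub, norm_neg] at h4
  have h5 := norm_nonneg (φ ⟨d, hd⟩)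
  simp only [] at h3
  nlinarith

theorem exists_type {I : Type u} (φ : I → H) (hφ : ∀ ξ : Du H, (∀ d, ξ (φ d) = 0) → ξ = 0)
    (R : ℝ) (χ : H) : ∃ t : Finset (I × ULift.{u} ℕ), ∀ ξ : Du H, ‖ξ‖ ≤ R →
      (∀ p ∈ t, ‖ξ (φ p.1)‖ ≤ 1 / (p.2.down + 1)) → ‖ξ χ‖ < 1 / 16 := by
  let K : Set (H → T) := {f | (∀ a b, f (a + b) = f a + f b) ∧ (∀ a, ‖f a‖ ≤ R * ‖a‖) ∧
    1 / 16 ≤ ‖f χ‖}
  have hK : IsClosed K := by
    simp only [K, Set.ofPred_and, Set.ofPred_forall]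
    refine (isClosed_iInter fun a => isClosed_iInter fun b => isClosed_eq ?_ ?_).inter
      ((isClosed_iInter fun a => isClosed_le ?_ ?_).inter (isClosed_le ?_ ?_)) <;> fun_prop
  obtain ⟨t, ht⟩ := hK.isCompact.elim_finite_subfamily_closed
    (fun p : I × ULift.{u} ℕ => {f : H → T | ‖f (φ p.1)‖ ≤ 1 / (p.2.down + 1)})
    (fun p => isClosed_le (by fun_prop) (by fun_prop)) (by
      rw [Set.eq_empty_iff_forall_notMem]
      rintro f ⟨⟨h1, h2, h3⟩, h4⟩
      have := hφ ((AddMonoidHom.mk' f h1).mkNormedAddGroupHom R h2) fun d => by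
        change f (φ d) = 0
        by_contra hne
        obtain ⟨n, hn⟩ := exists_nat_one_div_lt (norm_pos_iff.2 hne)
        exact absurd (Set.mem_iInter.1 h4 (d, ⟨n⟩)) (not_le.2 hn)
      have h5 : f χ = 0 := congrArg (fun g : Du H => g χ) this
      rw [h5, norm_zero] at h3
      norm_num at h3)
  refine ⟨t, fun ξ h1 h2 => ?_⟩
  by_contra hc
  refine Set.eq_empty_iff_forall_notMem.1 ht ξ ⟨⟨map_add ξ, ξ.le_of_opNorm_le h1, not_lt.1 hc⟩, ?_⟩
  exact Set.mem_iInter₂.2 h2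

end

variable {G : Type u} [NormedAddCommGroup G]

noncomputable def ev (x : G) : Du (Du G) :=
  (AddMonoidHom.mk' (fun χ : Du G => χ x) fun _ _ => rfl).mkNormedAddGroupHom ‖x‖
    fun χ => by rw [mul_comm]; exact χ.le_opNorm x

theorem ev_norm (x : G) : ‖ev x‖ ≤ ‖x‖ :=
  AddMonoidHom.mkNormedAddGroupHom_norm_le _ (norm_nonneg _) _

theorem ev_apply (x : G) (χ : Du G) : ev x χ = χ x := rfl

theorem finite_net' {A J : Type*} [Finite J] (P : A → Prop) (F : A → J → T) (δ : ℝ)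
    (hδ : 0 < δ) : ∃ S : Set A, S.Finite ∧ (∀ b ∈ S, P b) ∧
      ∀ a, P a → ∃ b ∈ S, ∀ j, ‖F a j - F b j‖ < δ := by
  have := Fintype.ofFinite J
  obtain ⟨S, hS, h⟩ := finite_net (fun a : {a // P a} => F a.1) δ hδ
  refine ⟨Subtype.val '' S, hS.image _, by rintro _ ⟨b, -, rfl⟩; exact b.2, fun a ha => ?_⟩
  obtain ⟨b, hb, h1⟩ := h ⟨a, ha⟩
  refine ⟨b, ⟨b, hb, rfl⟩, fun j => ?_⟩
  rw [← dist_eq_norm]
  exact (dist_le_pi_dist (F a) (F b.1) j).trans_lt h1

theorem net_type {I : Type u} (φ : I → Du G) (C : ℝ) (hC : 0 < C) (t : Finset (I × ULift.{u} ℕ)) :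
    ∃ E : Set (Du G), E.Finite ∧ ∀ χ : Du G, (∀ ξ : Du (Du G), ‖ξ‖ ≤ 2 * C →
      (∀ p ∈ t, ‖ξ (φ p.1)‖ ≤ 1 / (p.2.down + 1)) → ‖ξ χ‖ < 1 / 16) →
      ∃ e ∈ E, dist χ e ≤ 1 / (2 * C) := by
  obtain ⟨X, hX, hXC, h1⟩ := finite_net' (fun x : G => ‖x‖ ≤ C) (fun x (p : t) => φ p.1.1 x)
    (1 / ((t.sup fun p => p.2.down : ℕ) + 1)) Nat.one_div_pos_of_nat
  have := hX.to_subtype
  obtain ⟨E, hE, hEP, h2⟩ := finite_net' (fun χ : Du G => ∀ ξ : Du (Du G), ‖ξ‖ ≤ 2 * C →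
      (∀ p ∈ t, ‖ξ (φ p.1)‖ ≤ 1 / (p.2.down + 1)) → ‖ξ χ‖ < 1 / 16) (fun χ (x : X) => χ x.1)
    (1 / 8) (by norm_num)
  refine ⟨E, hE, fun χ hχ => ?_⟩
  obtain ⟨e, he, h3⟩ := h2 χ hχ
  refine ⟨e, he, ?_⟩
  rw [dist_eq_norm]
  refine NormedAddGroupHom.opNorm_le_bound _ (by positivity)
    (bound (χ - e).toAddMonoidHom C hC fun x hx => ?_)
  obtain ⟨y, hy, h4⟩ := h1 x hx
  have h5 : ‖χ y - e y‖ < 1 / 8 := h3 ⟨y, hy⟩
  have h6 : ‖ev (x - y)‖ ≤ 2 * C := by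
    have := norm_sub_le x y
    have := ev_norm (x - y)
    have := hXC y hy
    linarith
  have h7 : ∀ p ∈ t, ‖ev (x - y) (φ p.1)‖ ≤ 1 / (p.2.down + 1) := by
    intro p hp
    have a1 : ‖φ p.1 x - φ p.1 y‖ < _ := h4 ⟨p, hp⟩
    rw [ev_apply, map_sub]
    refine a1.le.trans (Nat.one_div_le_one_div ?_)
    exact Finset.le_sup (f := fun p : I × ULift.{u} ℕ => p.2.down) hp
  have h8 := hχ _ h6 h7
  have h9 := hEP e he _ h6 h7
  rw [ev_apply] at h8 h9
  have e1 : (χ - e).toAddMonoidHom x = (χ y - e y) + (χ (x - y) - e (x - y)) := by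
    change χ x - e x = _
    rw [map_sub, map_sub]; abel
  rw [e1]
  have a1 := norm_add_le (χ y - e y) (χ (x - y) - e (x - y))
  have a2 := norm_sub_le (χ (x - y)) (e (x - y))
  linarith

theorem infinite_case (h : ℵ₀ ≤ weight (Du (Du G))) : weight (Du G) ≤ weight (Du (Du G)) := by
  obtain ⟨D, hD, hc⟩ := exists_dense (Du (Du G))
  obtain ⟨φ, hφ⟩ := exists_sep D hD
  choose E hE hE' using fun p : ULift.{u} ℕ × Finset (D × ULift.{u} ℕ) =>
    net_type φ (p.1.down + 1) (by positivity) p.2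
  refine weight_le_of_dense (⋃ p, E p) ?_ _ h ?_
  · refine Metric.dense_iff.2 fun χ ε hε => ?_
    obtain ⟨n, hn⟩ := exists_nat_one_div_lt hε
    obtain ⟨t, ht⟩ := exists_type φ hφ (2 * (n + 1)) χ
    obtain ⟨e, he, h1⟩ := hE' (⟨n⟩, t) χ ht
    refine ⟨e, ?_, Set.mem_iUnion.2 ⟨_, he⟩⟩
    rw [Metric.mem_ball']
    refine h1.trans_lt (lt_of_le_of_lt ?_ hn)
    exact one_div_le_one_div_of_le (by positivity) (by simp only []; linarith [Nat.cast_nonneg (α := ℝ) n])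
  · refine (mk_iUnion_le _).trans ?_
    have : Nonempty D := hD.nonempty.to_subtype
    have h1 : Cardinal.mk (ULift.{u} ℕ × Finset (D × ULift.{u} ℕ)) ≤ weight (Du (Du G)) := by
      rw [mk_prod, mk_finset_of_infinite]
      simp only [mk_prod, lift_id, mk_uLift, mk_nat, lift_aleph0]
      exact (mul_le_mul' h ((mul_le_mul' hc h).trans (mul_eq_self h).le)).trans (mul_eq_self h).le
    have h2 : ⨆ p, Cardinal.mk (E p) ≤ weight (Du (Du G)) :=
      ciSup_le' fun p => (hE p).lt_aleph0.le.trans h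
    exact (mul_le_mul' h1 h2).trans (mul_eq_self h).le

theorem finite_case (h : weight (Du (Du G)) < ℵ₀) : weight (Du G) ≤ weight (Du (Du G)) := by
  classical
  obtain ⟨D, hD, hc⟩ := exists_dense (Du (Du G))
  have hf : D.Finite := lt_aleph0_iff_set_finite.1 (hc.trans_lt h)
  have e : D = Set.univ := by rw [← hf.isClosed.closure_eq, hD.closure_eq]
  rw [e] at hf hc
  rw [mk_univ] at hc
  have : Finite (Du (Du G)) := Set.finite_univ_iff.1 hf
  have := Fintype.ofFinite (Du (Du G))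
  let F : Du G → AddChar (Du (Du G)) ℂ := fun χ =>
    { toFun := fun ξ => (AddCircle.toCircle (ξ χ) : ℂ)
      map_zero_eq_one' := by simp
      map_add_eq_mul' := fun a b => by simp [AddCircle.toCircle_add] }
  have hF : Function.Injective F := by
    intro a b hab
    ext x
    have := DFunLike.congr_fun hab (ev x)
    exact AddCircle.injective_toCircle one_ne_zero (Subtype.ext this)
  have : Finite (Du G) := Finite.of_injective F hF
  have := Fintype.ofFinite (Du G)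
  refine (weight_le_card _).trans (le_trans ?_ hc)
  rw [mk_fintype, mk_fintype, Nat.cast_le]
  exact (Fintype.card_le_of_injective F hF).trans (AddChar.card_addChar_le _ _)

theorem result :
    (∀ (A : Type u) [NormedAddCommGroup A] (χ : A →+ UnitAddCircle), Continuous χ →
      ∃ M : ℝ, ∀ x, ‖χ x‖ ≤ M * ‖x‖) ∧
    ∀ (G : Type u) [NormedAddCommGroup G], weight (NormedAddGroupHom G UnitAddCircle) ≤
      weight (NormedAddGroupHom (NormedAddGroupHom G UnitAddCircle) UnitAddCircle) :=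
  ⟨fun _ _ χ h => bounded χ h, fun _ _ => (le_or_gt ℵ₀ _).elim infinite_case finite_case⟩

end Pool.Agent.Results.MP_e4445d_al.BidualWeight
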